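import Pool.Agent.J4H20.LV.Stm

/-!
# Project LV, piece LOC
-/

set_option autoImplicit false

namespace Pool.Agent.J4H79.LV

open Polynomial NumberField nonZeroDivisors WithZero Pool.Agent.J4H20.LV

section

variable {K : Type} [Field K] (w : Valuation K (WithZero (Multiplicative ℤ)))

lemma one_of_mul {x y : K} (hx : w x ≤ 1) (hy : w y ≤ 1) (h : w x * w y = 1) : w x = 1 := by
  by_contra hne
  have h1 : w x < 1 := lt_of_le_of_ne hx hne
  have h2 : w x * w y < 1 := mul_lt_one_of_lt_of_le h1 hy
  rw [h] at h2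
  exact lt_irrefl _ h2

variable {w}

lemma aeval_le (hint : ∀ a : ℤ, w (a : K) ≤ 1) {θ : K} (hθ : w θ ≤ 1) (G : ℤ[X]) :
    w (aeval θ G) ≤ 1 := by
  induction G using Polynomial.induction_on with
  | C a => simpa using hint a
  | add p q hp hq =>
    rw [map_add]
    exact w.map_add_le hp hq
  | monomial n a _ =>
    rw [map_mul, map_pow, aeval_X, map_mul, map_pow]
    refine mul_le_one' ?_ ?_
    · simpa using hint a
    · exact pow_le_one' hθ _

/-- coprime integers -/
lemma coprime_val (hint : ∀ a : ℤ, w (a : K) ≤ 1) {r b : ℤ} (h : IsCoprime r b)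
    (hr : w (r : K) < 1) (hb : w (b : K) < 1) : False := by
  obtain ⟨u, v, huv⟩ := h
  have h1 : w (1 : K) < 1 := by
    have e : (1 : K) = (u : K) * r + (v : K) * b := by
      rw [← Int.cast_mul, ← Int.cast_mul, ← Int.cast_add, huv, Int.cast_one]
    rw [e]
    refine w.map_add_lt ?_ ?_
    · rw [map_mul, mul_comm]
      exact mul_lt_one_of_lt_of_le hr (hint u)
    · rw [map_mul, mul_comm]
      exact mul_lt_one_of_lt_of_le hb (hint v)
  rw [map_one] at h1
  exact lt_irrefl _ h1

/-- the value of an integer polynomial at a point near an integer -/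
lemma eval_lt (hint : ∀ a : ℤ, w (a : K) ≤ 1) {θ : K} (hθ : w θ ≤ 1) (G : ℤ[X]) (a : ℤ)
    (ha : w (θ - (a : K)) < 1) (hG : w (aeval θ G) < 1) : w ((G.eval a : ℤ) : K) < 1 := by
  obtain ⟨q, hq⟩ := X_sub_C_dvd_sub_C_eval (a := a) (p := G)
  have h1 := congrArg (aeval θ) hq
  rw [map_sub, map_mul, map_sub, aeval_X, aeval_C, aeval_C, eq_intCast, eq_intCast] at h1
  have e : ((G.eval a : ℤ) : K) = aeval θ G - (θ - (a : K)) * aeval θ q := by
    rw [← h1]
    ring
  rw [e]
  refine w.map_sub_lt hG ?_
  rw [map_mul]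
  exact mul_lt_one_of_lt_of_le ha (aeval_le hint hθ q)

end

/-- the equation -/
lemma eqn {m e j k : ℕ} (D : DatL m e j k) {K : Type} [Field K] {θ : K} {c M : ℤ}
    (h : aeval θ (HL m D.g D.r D.h c M) = 0) :
    (M : K) ^ m * ∏ i, (θ - (D.a i : K)) = ((M : K) * aeval θ D.g + (c : K) * aeval θ D.h) ^ m := by
  have h1 := congrArg (aeval θ) D.hf
  rw [map_prod] at h1
  simp only [map_sub, aeval_X, aeval_C, map_add, map_pow] at h1
  simp only [eq_intCast] at h1
  have h2 : aeval θ (HL m D.g D.r D.h c M) =
      ((M : K) * aeval θ D.g + (c : K) * aeval θ D.h) ^ m - (M : K) ^ m * ((aeval θ D.g) ^ m + aeval θ D.r) := by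
    unfold HL
    simp only [map_sub, map_mul, map_pow, map_add, eq_intCast, map_intCast]
  rw [h2] at h
  rw [h1]
  linear_combination (-1 : K) * h

theorem t_LOC : S_LOC := by
  intro m e j k D K _ _ θ c M hM hcop hdvd hhc hθ0 hne i i' v
  set w := v.valuation K with hw
  have hm0 : m ≠ 0 := by have := D.hm; omega
  have hint : ∀ a : ℤ, w (a : K) ≤ 1 := by
    intro a
    have := v.valuation_le_one (K := K) (a : 𝓞 K)
    simpa using this
  have hE := eqn D hθ0
  rcases le_or_gt (w θ) 1 with hθ | hθ
  · by_cases hMw : w (M : K) = 1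
    · have hdiff : ∀ i j, i ≠ j → w ((D.a i : K) - (D.a j : K)) = 1 := by
        intro i j hij
        obtain ⟨e, he⟩ := hdvd i j hij
        have h1 : w (((D.a i - D.a j : ℤ) : K)) * w (e : K) = 1 := by
          rw [← map_mul, ← Int.cast_mul, ← he, hMw]
        have := one_of_mul w (hint _) (hint _) h1
        rwa [Int.cast_sub] at this
      have hpt : ∀ i, ∃ z : ℤ, w (θ - (D.a i : K)) = exp ((m : ℤ) * z) := by
        intro i
        have hle : w (θ - (D.a i : K)) ≤ 1 := w.map_sub_le hθ (hint _)
        by_cases h1 : w (θ - (D.a i : K)) = 1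
        · exact ⟨0, by rw [h1, mul_zero, exp_zero]⟩
        have hlt : w (θ - (D.a i : K)) < 1 := lt_of_le_of_ne hle h1
        have hoth : ∀ j, j ≠ i → w (θ - (D.a j : K)) = 1 := by
          intro j hj
          have e : θ - (D.a j : K) = (θ - (D.a i : K)) + ((D.a i : K) - (D.a j : K)) := by ring
          rw [e, w.map_add_eq_of_lt_right (by rw [hdiff i j (Ne.symm hj)]; exact hlt)]
          exact hdiff i j (Ne.symm hj)
        have hprod : w (∏ i, (θ - (D.a i : K))) = w (θ - (D.a i : K)) := by
          rw [map_prod]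
          exact Finset.prod_eq_single i (fun j _ hj => hoth j hj) (fun h => absurd (Finset.mem_univ i) h)
        have hsq : w (θ - (D.a i : K)) = w ((M : K) * aeval θ D.g + (c : K) * aeval θ D.h) ^ m := by
          have h2 := congrArg w hE
          rw [map_mul, map_pow, hMw, one_pow, one_mul, hprod, map_pow] at h2
          exact h2
        have h0 : w ((M : K) * aeval θ D.g + (c : K) * aeval θ D.h) ≠ 0 := by
          intro h0
          rw [h0, zero_pow hm0] at hsq
          exact hne i ((w.zero_iff).mp hsq)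
        refine ⟨log (w ((M : K) * aeval θ D.g + (c : K) * aeval θ D.h)), ?_⟩
        rw [hsq]
        conv_lhs => rw [← exp_log h0]
        rw [← exp_nsmul, nsmul_eq_mul]
      obtain ⟨z, hz⟩ := hpt i
      obtain ⟨z', hz'⟩ := hpt i'
      refine ⟨z - z', ?_⟩
      rw [map_div₀, hz, hz', mul_sub, exp_sub]
    · have hMlt : w (M : K) < 1 := lt_of_le_of_ne (hint M) hMw
      have hc1 : w (c : K) = 1 := by
        by_contra hcne
        exact coprime_val hint hcop (lt_of_le_of_ne (hint c) hcne) hMlt
      have hMg : w ((M : K) * aeval θ D.g) < 1 := by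
        rw [map_mul]
        exact mul_lt_one_of_lt_of_le hMlt (aeval_le hint hθ _)
      have hs : w ((M : K) * aeval θ D.g + (c : K) * aeval θ D.h) < 1 := by
        have hle : w ((M : K) * aeval θ D.g + (c : K) * aeval θ D.h) ≤ 1 := by
          refine w.map_add_le hMg.le ?_
          rw [map_mul]
          exact mul_le_one' (hint c) (aeval_le hint hθ _)
        by_contra hns
        have h1 : w ((M : K) * aeval θ D.g + (c : K) * aeval θ D.h) = 1 := le_antisymm hle (not_lt.mp hns)
        have h2 := congrArg w hE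
        rw [map_mul, map_pow, map_pow, h1, one_pow, map_prod] at h2
        have h3 : w (M : K) ^ m < 1 := pow_lt_one' hMlt hm0
        have h4 : ∏ i, w (θ - (D.a i : K)) ≤ 1 := Finset.prod_le_one' (fun i _ => w.map_sub_le hθ (hint _))
        have h5 := mul_lt_one_of_lt_of_le h3 h4
        rw [h2] at h5
        exact lt_irrefl _ h5
      have hh : w (aeval θ D.h) < 1 := by
        have e : (c : K) * aeval θ D.h =
          ((M : K) * aeval θ D.g + (c : K) * aeval θ D.h) - (M : K) * aeval θ D.g := by ring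
        have h1 : w ((c : K) * aeval θ D.h) < 1 := by
          rw [e]
          exact w.map_sub_lt hs hMg
        rwa [map_mul, hc1, one_mul] at h1
      have hu : ∀ i, w (θ - (D.a i : K)) = 1 := by
        intro i
        by_contra h1
        have hlt : w (θ - (D.a i : K)) < 1 := lt_of_le_of_ne (w.map_sub_le hθ (hint _)) h1
        exact coprime_val hint (hhc i) (eval_lt hint hθ D.h (D.a i) hlt hh) hMlt
      refine ⟨0, ?_⟩
      rw [map_div₀, hu, hu, div_one, mul_zero, exp_zero]
  · have hpt : ∀ x, w (θ - (D.a x : K)) = w θ := fun x =>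
      w.map_sub_eq_of_lt_left ((hint _).trans_lt hθ)
    refine ⟨0, ?_⟩
    have hne : w θ ≠ 0 := (zero_lt_one.trans hθ).ne'
    rw [map_div₀, hpt, hpt, div_self hne, mul_zero, exp_zero]

end Pool.Agent.J4H79.LV
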